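import Pool.Agent.FS.BottSamelson3.P4

set_option autoImplicit false

namespace FS8e5b3d.Par

open Pool.Agent.Lib.MP_8e5b3d_co Polynomial

theorem pal_coeff {m : ℤ[X]} {d : ℕ}
    (h : LaurentPolynomial.invert (ev m) = LaurentPolynomial.T (-2 * (d : ℤ)) * ev m)
    (i j : ℕ) (hij : i + j = d) : m.coeff i = m.coeff j := by
  have := congrArg (fun f : LaurentPolynomial ℤ => f.coeff (-2 * (i : ℤ))) h
  simp only [coeff_T_mul, LaurentPolynomial.invert_apply, ev_apply, coeff_aeval_two] at this
  rw [if_pos (by omega), if_pos (by omega)] at this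
  rw [show (- (-2 * (i : ℤ)) / 2).toNat = i by omega,
    show ((-2 * (i : ℤ) - -2 * (d : ℤ)) / 2).toNat = j by omega] at this
  exact this

theorem pal_of {c : ℤ[X]} {n : ℕ} (h1 : ∀ i j, i + j = n → c.coeff i = c.coeff j)
    (h2 : ∀ i, n < i → c.coeff i = 0) :
    LaurentPolynomial.invert (ev c) = LaurentPolynomial.T (-2 * (n : ℤ)) * ev c := by
  refine AddMonoidAlgebra.ext (Finsupp.ext fun z => ?_)
  simp only [coeff_T_mul, LaurentPolynomial.invert_apply, ev_apply, coeff_aeval_two]
  split_ifs with a b b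
  · exact h1 _ _ (by omega)
  · exact h2 _ (by omega)
  · exact (h2 _ (by omega)).symm
  · rfl

/-- The truncation. -/
noncomputable def trunc (m : ℤ[X]) (d L : ℕ) : ℤ[X] :=
  ∑ k ∈ Finset.range ((d + L + 1) / 2), monomial k (((1 - X ^ L) * m).coeff k)

theorem trunc_coeff (m : ℤ[X]) (d L k : ℕ) : (trunc m d L).coeff k =
    if 2 * k < d + L then m.coeff k - (if L ≤ k then m.coeff (k - L) else 0) else 0 := by
  simp only [trunc, finsetSum_coeff, coeff_monomial, Finset.sum_ite_eq', Finset.mem_range, sub_mul,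
    one_mul, coeff_sub, coeff_X_pow_mul']
  exact if_congr (by omega) rfl rfl

theorem trunc_pal {m : ℤ[X]} {d : ℕ} (L : ℕ) (h1 : ∀ i j, i + j = d → m.coeff i = m.coeff j)
    (h2 : ∀ i, d < i → m.coeff i = 0) :
    LaurentPolynomial.invert (ev (m - trunc m d L)) =
      LaurentPolynomial.T (-2 * ((d + L : ℕ) : ℤ)) * ev (m - trunc m d L) := by
  have key : ∀ i j, i + j = d + L → (if L ≤ i then m.coeff (i - L) else 0) = m.coeff j := by
    intro i j h
    split_ifs with a
    · exact h1 _ _ (by omega)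
    · exact (h2 _ (by omega)).symm
  refine pal_of (fun i j h => ?_) fun i h => ?_
  · rw [coeff_sub, coeff_sub, trunc_coeff, trunc_coeff, key i j h, key j i (by omega)]
    split_ifs with a b b
    · omega
    · ring
    · ring
    · obtain rfl : i = j := by omega
      rfl
  · rw [coeff_sub, trunc_coeff, if_neg (by omega), h2 i (by omega), sub_zero]

variable {B K W W' : Type} [Group W] [Group W'] {M : CoxeterMatrix B} {J : K → Set B}
  (cs : CoxeterSystem M W) (cs' : CoxeterSystem (ext M J) W')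

open Classical in
/-- The Poincare polynomial of the quotient. -/
noncomputable def mq (p : Dat B W K) : ℤ[X] :=
  ∑ u ∈ p.P.support.filter (Min cs p.A), p.P u * X ^ cs.length u

theorem sum_abs {R : Type} [CommRing R] (φ : ℤ[X] →+* R) {p : Dat B W K} (hp : Good cs J p)
    {A : Set B} (hx : p.x ∈ WJ cs A) {E : W' →₀ R}
    (hE : ∀ s ∈ A, mulT cs' (φ X) (.inl s) E = φ X • E) (S : Finset W) (hS : S ⊆ p.P.support) :
    ∑ u ∈ S, φ (p.P u) • opw cs' (φ X) ((rw0 cs u).map .inl) E =
      φ (∑ u ∈ S, p.P u * X ^ cs.length u) • E := by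
  rw [map_sum, Finset.sum_smul]
  refine Finset.sum_congr rfl fun u hu => ?_
  have h2 : BruhatLE cs u p.x := by
    by_contra hn
    exact Finsupp.mem_support_iff.mp (hS hu) (hp.kl.2.1 u hn)
  obtain ⟨η, -, o2, o3⟩ := wj_word cs hx
  obtain ⟨ξ, h3, h4⟩ := sublist_of_bruhat cs h2 η o3
  obtain ⟨ω, h5, h1, h7⟩ := exists_reduced_sublist cs ξ
  have h8 : ∀ s ∈ ω, s ∈ A := fun s hs => o2 s ((h5.trans h3).subset hs)
  rw [map_mul, mul_smul, ← h4, ← h7, opw_rw0 cs cs' _ h1, h1.eq, map_pow]
  congr 1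
  clear h1 h5 h7
  induction ω with
  | nil => simp
  | cons s ω ih =>
    rw [List.map_cons, opw_cons, Module.End.mul_apply,
      ih fun a ha => h8 a (List.mem_cons_of_mem _ ha), map_smul, hE s (h8 s List.mem_cons_self),
      smul_smul, List.length_cons, pow_succ]

theorem tot_left {R : Type} [CommRing R] [IsDomain R] (φ : ℤ[X] →+* R)
    (hφ : ∀ p, p ≠ 0 → φ p ≠ 0) (p : Dat B W K) (g : Good cs J p) (hc : Chs cs [p]) {s : B}
    (hd : cs.IsLeftDescent p.x s) :
    mulT cs' (φ X) (.inl s) (tot cs cs' φ [p] (Finsupp.single 1 1)) =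
      φ X • tot cs cs' φ [p] (Finsupp.single 1 1) := by
  have e := tot_pi cs cs' φ hφ [] p (by simpa using g) hc
  refine smul_right_injective _ (hφ _ g.pi_ne) ?_
  simp only
  rw [← map_smul, smul_comm, e, ← Module.End.mul_apply, cop_left cs cs' φ g.kl hd,
    LinearMap.smul_apply]

theorem cone (p r : Dat B W K) (hP : Good cs J p) (hr : Good cs J r) (hc : Chs cs [p, r])
    (hn : ([p, r].flatMap fun p => p.b).Nodup) (hL : 0 < p.b.length)
    (hL' : cs.length (mr cs r.A r.x) + 1 ≤ r.b.length) {A : Set B} (hx : p.x ∈ WJ cs A)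
    (hA : ∀ s ∈ A, cs.IsLeftDescent r.x s) :
    pi cs p.F * mq cs p = ∑ u ∈ p.P.support, p.P u * X ^ cs.length u ∧
    ∃ (w : W') (P : W' → ℤ[X]), IsKLColumn cs' w P ∧
      pi cs r.F * P 1 = trunc (mq cs p) (mq cs p).natDegree p.b.length *
        (r.P.sum fun y a => a • opw cs X (rw0 cs y)) (Finsupp.single 1 1) 1 := by
  classical
  obtain ⟨h1, h2, h3⟩ := split_nodup cs hn
  have hc' := hc.tail cs
  have hl' : ∀ a ∈ [r], Good cs J a := by simpa using hr
  have hl : ∀ a ∈ [p, r], Good cs J a := by simp [hP, hr]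
  have hJ : ∀ s ∈ p.A, cs.IsLeftDescent r.x s := fun s hs => by
    obtain ⟨a, h, hd⟩ := hc [] p [r] rfl s hs
    obtain rfl : r = a := by simpa using h
    exact hd
  obtain ⟨hred, F, G, e, sF, sG, bF, bG⟩ := inv_tot cs cs' (cs.length (mr cs r.A r.x) + 1)
    (by omega) [r] hl' h2 (by simpa using hL')
  have bQ : Bc cs' (F + G) 1 (wd cs [r]).length := bF.add (bG.mono (by simp))
  have sQ := supp_add sF sG
  rw [add_assoc] at e
  generalize F + G = Q at *
  clear bF bG sF sG
  have one : tot cs cs' (RingHom.id _) [r] (Finsupp.single 1 1) (cs'.wordProd (wd cs [r])) = 1 := by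
    have : Q (cs'.wordProd (wd cs [r])) = 0 := by
      by_contra h
      have := bQ _ h
      have := hred.eq
      omega
    rw [e, Finsupp.add_apply, this, Finsupp.single_eq_same, add_zero]
  have absA : ∀ {R : Type} [CommRing R] [IsDomain R] (φ : ℤ[X] →+* R), (∀ p, p ≠ 0 → φ p ≠ 0) →
      copA cs cs' φ p (tot cs cs' φ [r] (Finsupp.single 1 1)) =
        φ (mq cs p) • tot cs cs' φ [r] (Finsupp.single 1 1) ∧
      cop cs cs' φ p.P (tot cs cs' φ [r] (Finsupp.single 1 1)) =
        φ (pi cs p.F * mq cs p) • tot cs cs' φ [r] (Finsupp.single 1 1) := by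
    intro R _ _ φ hφ
    have a := sum_abs cs cs' φ hP hx (fun s hs => tot_left cs cs' φ hφ r hr hc' (hA s hs)) _
      (Finset.filter_subset (Min cs p.A) _)
    rw [← copA_apply] at a
    refine ⟨a, ?_⟩
    rw [cop_fact cs cs' φ hP, Module.End.mul_apply, sig_apply cs cs' φ hP
      (fun s hs => tot_left cs cs' φ hφ r hr hc' (hJ s hs)), map_smul, a, smul_smul, map_mul]
    rfl
  have first : pi cs p.F * mq cs p = ∑ u ∈ p.P.support, p.P u * X ^ cs.length u := by
    have a := sum_abs cs cs' (RingHom.id _) hP hx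
      (fun s hs => tot_left cs cs' (RingHom.id _) (fun _ h => h) r hr hc' (hA s hs)) _
      (Finset.Subset.refl _)
    rw [← cop_apply, (absA (RingHom.id _) fun _ h => h).2] at a
    have := congrArg (fun f : W' →₀ ℤ[X] => f (cs'.wordProd (wd cs [r]))) a
    simpa only [Finsupp.smul_apply, one, smul_eq_mul, mul_one, RingHom.id_apply] using this
  refine ⟨first, ?_⟩
  have evE : ∀ l : List (Dat B W K), evm (tot cs cs' (RingHom.id _) l (Finsupp.single 1 1)) =
      tot cs cs' ev l (Finsupp.single 1 1) := fun l => by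
    have := map_tot cs cs' l (Finsupp.single 1 1)
    rwa [Finsupp.mapRange_single, map_one] at this
  have b2 := bar_tot cs cs' [r] hl' hc'
  obtain ⟨k, k1, k2⟩ := hP.pal
  have pal : LaurentPolynomial.invert (ev (mq cs p)) =
      LaurentPolynomial.T (-2 * (cs.length (mr cs p.A p.x) : ℤ)) * ev (mq cs p) := by
    have a := (absA ev fun _ => ev_ne).2
    have h := congrArg (bar cs') a
    rw [bi_cop cs cs' hP.kl, b2, map_smul, a, bar_smul, b2, ← evE] at h
    have := congrArg (fun f : W' →₀ LaurentPolynomial ℤ => f (cs'.wordProd (wd cs [r]))) h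
    simp only [Finsupp.smul_apply, evm_apply, one, map_one, smul_eq_mul, mul_one, map_mul,
      k2] at this
    refine mul_left_cancel₀ (mul_ne_zero (mul_ne_zero
      (LaurentPolynomial.isUnit_T (-2 * (k : ℤ))).ne_zero (ev_ne hP.pi_ne))
      (LaurentPolynomial.isUnit_T (-2 * ((wd cs [r]).length : ℤ))).ne_zero) ?_
    have e3 : (LaurentPolynomial.T (-2 * (cs.length p.x : ℤ)) : LaurentPolynomial ℤ) =
        LaurentPolynomial.T (-2 * (k : ℤ)) *
          LaurentPolynomial.T (-2 * (cs.length (mr cs p.A p.x) : ℤ)) := by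
      rw [← LaurentPolynomial.T_add, k1]; congr 1; push_cast; ring
    rw [e3] at this
    linear_combination -this
  obtain ⟨-, hmin, -⟩ := mr_spec cs p.A p.x
  have hx' : mr cs p.A p.x ∈ p.P.support.filter (Min cs p.A) := Finset.mem_filter.mpr
    ⟨by rw [Finsupp.mem_support_iff, hP.top]; exact one_ne_zero, hmin⟩
  have hi : ∀ i, cs.length (mr cs p.A p.x) ≤ i →
      (mq cs p).coeff i = if i = cs.length (mr cs p.A p.x) then 1 else 0 := by
    intro i h
    rw [mq, ← Finset.add_sum_erase _ _ hx', hP.top, one_mul, coeff_add, coeff_X_pow,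
      finsetSum_coeff, Finset.sum_eq_zero, add_zero]
    intro u hu
    have := (hP.deg (Finset.mem_filter.mp (Finset.mem_of_mem_erase hu)).1
      (Finset.mem_filter.mp (Finset.mem_of_mem_erase hu)).2).1 (Finset.ne_of_mem_erase hu)
    refine coeff_eq_zero_of_natDegree_lt (lt_of_le_of_lt natDegree_mul_le ?_)
    rw [natDegree_X_pow]
    omega
  have hd : (mq cs p).natDegree = cs.length (mr cs p.A p.x) :=
    natDegree_eq_of_le_of_coeff_ne_zero
      (natDegree_le_iff_coeff_eq_zero.mpr fun i h => by rw [hi i h.le, if_neg h.ne'])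
      (by rw [hi _ le_rfl, if_pos rfl]; exact one_ne_zero)
  have tp := trunc_pal p.b.length (pal_coeff pal) fun i h => by rw [hi i h.le, if_neg h.ne']
  rw [hd]
  have td : 2 * (trunc (mq cs p) (cs.length (mr cs p.A p.x)) p.b.length).natDegree + 1 ≤
      cs.length (mr cs p.A p.x) + p.b.length := by
    have : (trunc (mq cs p) (cs.length (mr cs p.A p.x)) p.b.length).natDegree ≤
        (cs.length (mr cs p.A p.x) + p.b.length - 1) / 2 :=
      natDegree_le_iff_coeff_eq_zero.mpr fun i h => by rw [trunc_coeff, if_neg (by omega)]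
    omega
  generalize trunc (mq cs p) (cs.length (mr cs p.A p.x)) p.b.length = t at *
  obtain ⟨hr1, b1⟩ := top_blk cs' p.b h1 hred h3
  have hlead : Lead cs' p.A (cs'.wordProd (p.b.map .inr ++ wd cs [r])) := by
    obtain ⟨m, b, hb'⟩ := List.exists_cons_of_length_pos (l := p.b) hL
    have ht := hP.typ
    rw [hb'] at h1 h3 ht ⊢
    exact ⟨m, _, ht m List.mem_cons_self,
      not_mem_blk (List.nodup_cons.mp h1).1 (h3 m List.mem_cons_self), by
        rw [List.map_cons, List.cons_append, cs'.wordProd_cons]⟩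
  obtain ⟨hr2, b3⟩ := top_cop cs cs' hP hr1 hlead
  rw [← wd_cons] at hr2 b3
  have s0 := supp_single (cs := cs') (R := ℤ[X]) (wd cs [r])
  have b0 : Bc cs' (Finsupp.single (cs'.wordProd (wd cs [r])) 1) 0 (wd cs [r]).length := by
    have := Bc.single (cs := cs') (cs'.wordProd (wd cs [r]))
    rwa [hred.eq] at this
  have l1 : ∀ v, Finsupp.single (cs'.wordProd (p.b.map .inr ++ wd cs [r])) (1 : ℤ[X]) v ≠ 0 →
      Lead cs' p.A v := fun v hv => by
    by_cases e : v = cs'.wordProd (p.b.map .inr ++ wd cs [r])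
    · rwa [e]
    · exact absurd (Finsupp.single_eq_of_ne e) hv
  have hlen : (p.b.map (Sum.inr : K → B ⊕ K) ++ wd cs [r]).length =
    p.b.length + (wd cs [r]).length := by simp
  have wl := wd_len cs p [r]
  have a1 := (absA (RingHom.id _) fun _ h => h).1
  have sE := supp_tot cs cs' [r] hl'
  have strict : Bc cs' (tot cs cs' (RingHom.id _) [p, r] (Finsupp.single 1 1) -
      (mq cs p - t) • tot cs cs' (RingHom.id _) [r] (Finsupp.single 1 1) -
      Finsupp.single (cs'.wordProd (wd cs [p, r])) 1) 1 (wd cs [p, r]).length := by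
    have bE : Bc cs' (tot cs cs' (RingHom.id _) [r] (Finsupp.single 1 1)) 0 (wd cs [r]).length := by
      rw [e]; exact b0.add (bQ.mono (by omega))
    rw [tot_cons]
    generalize Finsupp.single (cs'.wordProd (wd cs [p, r])) (1 : ℤ[X]) = t2 at *
    generalize Finsupp.single (cs'.wordProd (p.b.map .inr ++ wd cs [r])) (1 : ℤ[X]) = t1 at *
    generalize Finsupp.single (cs'.wordProd (wd cs [r])) (1 : ℤ[X]) = t0 at *
    generalize tot cs cs' (RingHom.id _) [r] (Finsupp.single 1 1) = E at *
    rw [RingHom.id_apply] at a1 ⊢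
    have e5 : copA cs cs' (RingHom.id _) p (blk cs' X p.b E) - (mq cs p - t) • E - t2 =
        (copA cs cs' (RingHom.id _) p t1 - t2) +
        copA cs cs' (RingHom.id _) p (blk cs' X p.b t0 - t0 - t1) +
        copA cs cs' (RingHom.id _) p (blk cs' X p.b Q - Q) + t • E := by
      rw [sub_smul, ← a1, e]
      simp only [map_add, map_sub]
      abel
    rw [e5]
    refine Bc.add (Bc.add (Bc.add (b3.mono (by omega)) ?_) ?_) ((bE.smul t).mono (by omega))
    · refine (bc_cop_lead cs cs' hP (c := 1) (N := (wd cs [r]).length + p.b.length) ?_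
        fun v hv => ?_).mono (by omega)
      · rw [sub_right_comm]
        exact b1.sub (b0.mono (by omega))
      · by_cases h4 : t1 v = 0
        · rw [Finsupp.sub_apply, h4, sub_zero] at hv
          exact lead_blk cs' X p.b hP.typ h1 s0 h3 v hv
        · exact l1 v h4
    · exact (bc_cop_lead cs cs' hP ((bc_blk cs' p.b h1 sQ h3 bQ).sub (bQ.mono (by omega)))
        (lead_blk cs' X p.b hP.typ h1 sQ h3)).mono (by omega)
  have sD : SuppIn cs' (tot cs cs' (RingHom.id _) [p, r] (Finsupp.single 1 1) -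
      (mq cs p - t) • tot cs cs' (RingHom.id _) [r] (Finsupp.single 1 1)) (wd cs [p, r]) := by
    refine supp_sub (supp_tot cs cs' _ hl) fun u hu => supp_mono sE ?_ u ?_
    · rw [wd_cons cs p]
      exact (List.sublist_append_right _ _).trans (List.sublist_append_right _ _)
    · rw [Finsupp.smul_apply, smul_eq_mul] at hu
      exact right_ne_zero_of_mul hu
  have hlen2 := hr2.eq
  refine ⟨cs'.wordProd (wd cs [p, r]), (tot cs cs' (RingHom.id _) [p, r] (Finsupp.single 1 1) -
      (mq cs p - t) • tot cs cs' (RingHom.id _) [r] (Finsupp.single 1 1) : W' →₀ ℤ[X]),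
    kl_of cs' ?_ (fun u hu => ?_) (fun u hne hu => ?_) ?_, ?_⟩
  · by_contra h
    have := strict (cs'.wordProd (wd cs [p, r]))
      (by rw [Finsupp.sub_apply, Finsupp.single_eq_same]; exact sub_ne_zero.mpr h)
    omega
  · obtain ⟨η, h5, rfl⟩ := sD u hu
    exact bruhat_of_sublist cs' h5 hr2
  · have := strict u (by rwa [Finsupp.sub_apply, Finsupp.single_eq_of_ne hne, sub_zero])
    rwa [Finsupp.sub_apply, Finsupp.single_eq_of_ne hne, sub_zero, ← hlen2] at this
  · refine BW.sub cs' ?_ ?_
    · unfold BW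
      rw [evE, hlen2]
      exact bar_tot cs cs' _ hl hc
    · unfold BW
      rw [evm_smul, evE, bar_smul, b2, tp, hlen2, wl, smul_smul, smul_smul, mul_right_comm,
        ← LaurentPolynomial.T_add]
      congr 3
      push_cast
      ring
  · have tr := trace_tot cs cs' [r] hl' hc' h2 1
    simp only [List.map_cons, List.map_nil, List.prod_cons, List.prod_nil, mul_one, map_one] at tr
    have z : tot cs cs' (RingHom.id _) [p, r] (Finsupp.single 1 1) 1 =
        mq cs p * tot cs cs' (RingHom.id _) [r] (Finsupp.single 1 1) 1 := by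
      have a2 := congrArg (fun f : W' →₀ ℤ[X] => f 1) a1
      simp only [Finsupp.smul_apply, smul_eq_mul, RingHom.id_apply] at a2
      rw [← a2, tot_cons, ← sub_eq_zero, ← Finsupp.sub_apply, ← map_sub, copA_apply,
        Finsupp.finsetSum_apply]
      refine Finset.sum_eq_zero fun u _ => ?_
      have := opw_inc cs cs' (X : ℤ[X]) (rw0 cs u) (g0 := 0) (g := blk cs' X p.b
        (tot cs cs' (RingHom.id _) [r] (Finsupp.single 1 1)) -
        tot cs cs' (RingHom.id _) [r] (Finsupp.single 1 1)) (fun v => by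
          by_contra h0
          exact not_lead cs cs' _ v (lead_blk cs' X p.b hP.typ h1 sE h3 _ h0)) 1
      rw [map_one, map_zero] at this
      rw [Finsupp.smul_apply, RingHom.id_apply, RingHom.id_apply, this]
      simp
    rw [Finsupp.sub_apply, Finsupp.smul_apply, smul_eq_mul, z, ← tr]
    ring

omit [Group W'] in
theorem main2 (C : W → W →₀ ℤ[X]) (hC : ∀ x, IsKLColumn cs x (C x)) (x y : W) (I A : Set B)
    (L : ℕ) (hL : 0 < L) (h1 : (WJ cs I : Set W).Finite) (h2 : ∀ s ∈ I, cs.IsRightDescent x s)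
    (h3 : ∀ s ∈ I, cs.IsLeftDescent y s) (h4 : x ∈ WJ cs A) (h5 : ∀ s ∈ A, cs.IsLeftDescent y s) :
    ∃ m : ℤ[X], (∑ᶠ v ∈ (WJ cs I : Set W), (X : ℤ[X]) ^ cs.length v) * m =
        (C x).sum (fun u a => a * X ^ cs.length u) ∧
      ∃ (K : Type) (_ : Finite K) (J : K → Set B) (w : (ext M J).Group)
        (P : (ext M J).Group → ℤ[X]), IsKLColumn (ext M J).toCoxeterSystem w P ∧
        P 1 = trunc m m.natDegree L * C y 1 := by
  classical
  let J : Fin L ⊕ Fin (cs.length y + 1) → Set B := Sum.elim (fun _ => I) fun _ => ∅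
  let p : Dat B W (Fin L ⊕ Fin (cs.length y + 1)) :=
    ⟨x, C x, I, h1.toFinset, (List.finRange L).map .inl⟩
  let r : Dat B W (Fin L ⊕ Fin (cs.length y + 1)) :=
    ⟨y, C y, ∅, {1}, (List.finRange _).map .inr⟩
  have hp : Good cs J p := ⟨hC x, fun v => by simp [p], h2, fun m hm => by
    obtain ⟨j, _, rfl⟩ := List.mem_map.mp hm
    rfl⟩
  have hr : Good cs J r := ⟨hC y, fun v => by simp [r, WJ], fun s hs => hs.elim, fun m hm => by
    obtain ⟨j, _, rfl⟩ := List.mem_map.mp hm
    rfl⟩
  have hc : Chs cs [p, r] := by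
    intro a q b e s hs
    rcases a with _ | ⟨a1, _ | ⟨a2, a⟩⟩
    · obtain ⟨rfl, rfl⟩ := List.cons.inj e
      exact ⟨r, rfl, h3 s hs⟩
    · obtain ⟨-, e2⟩ := List.cons.inj e
      obtain ⟨rfl, -⟩ := List.cons.inj e2
      exact hs.elim
    · simp at e
  have hn : ([p, r].flatMap fun p => p.b).Nodup := by
    simp only [List.flatMap_cons, List.flatMap_nil, List.append_nil, p, r]
    refine List.nodup_append.mpr ⟨(List.nodup_finRange _).map Sum.inl_injective,
      (List.nodup_finRange _).map Sum.inr_injective, ?_⟩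
    simp
  obtain ⟨k, k1, -⟩ := hr.pal
  obtain ⟨e1, w, P, hP, e2⟩ := cone cs (ext M J).toCoxeterSystem p r hp hr hc hn (by simpa [p])
    (by simp only [r, List.length_map, List.length_finRange] at k1 ⊢; omega) h4 h5
  refine ⟨mq cs p, ?_, _, inferInstance, J, w, P, hP, ?_⟩
  · rw [finsum_mem_eq_finite_toFinset_sum _ h1]
    exact e1
  · have e3 : pi cs r.F = 1 := by simp [pi, r]
    have e4 : p.b.length = L := by simp [p]
    rw [e3, one_mul, e4] at e2
    rw [e2]
    congr 1
    rw [Finsupp.sum, LinearMap.sum_apply, Finsupp.finsetSum_apply]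
    simp only [LinearMap.smul_apply, opw_one_of_reduced cs X (rw0_red cs _), rw0_prod,
      Finsupp.smul_apply, smul_eq_mul, Finsupp.single_apply, mul_ite, mul_one, mul_zero,
      Finset.sum_ite_eq']
    split_ifs with h
    · rfl
    · exact (Finsupp.notMem_support_iff.mp h).symm

end FS8e5b3d.Par
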